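import Pool.Agent.H89.FM.Targets2

/-!
# Row HG: the sum of the weights of the blocks, general vectors
-/

set_option autoImplicit false

open MeasureTheory Set Filter
open scoped Real Matrix MatrixGroups

namespace Pool.Agent.H29.FM

open Pool.Agent.H31.CN Pool.Agent.H89.FM

/-- The sum of `1 / f` over the pairs `(f, k)` with `f 2^k ≤ A`. -/
theorem sum_blocks (A : ℝ) (hA : 1 ≤ A) (P : Finset (ℕ × ℕ))
    (hP : ∀ b ∈ P, 1 ≤ b.1 ∧ (b.1 : ℝ) * 2 ^ b.2 ≤ A) :
    ∑ b ∈ P, 1 / (b.1 : ℝ) ≤ 2 * (1 + Real.log A) ^ 2 := by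
  have hlog : 0 ≤ Real.log A := Real.log_nonneg hA
  have hsub : P ⊆ Finset.Icc 1 ⌊A⌋₊ ×ˢ Finset.range (⌊2 * Real.log A⌋₊ + 1) := by
    intro b hb
    obtain ⟨h1, h2⟩ := hP b hb
    have h1' : (1 : ℝ) ≤ b.1 := by exact_mod_cast h1
    have h2k : (1 : ℝ) ≤ 2 ^ b.2 := one_le_pow₀ (by norm_num)
    rw [Finset.mem_product, Finset.mem_Icc, Finset.mem_range]
    refine ⟨⟨h1, Nat.le_floor ?_⟩, Nat.lt_succ_of_le (Nat.le_floor ?_)⟩
    · nlinarith
    · have h3 : (2 : ℝ) ^ b.2 ≤ A := by nlinarith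
      have h4 := Real.log_le_log (by positivity) h3
      rw [Real.log_pow] at h4
      have h5 : (1 / 2 : ℝ) ≤ Real.log 2 := by
        have := Real.log_two_gt_d9
        linarith
      have h6 : (0 : ℝ) ≤ b.2 := Nat.cast_nonneg _
      nlinarith
  have h1 : ∑ b ∈ P, 1 / (b.1 : ℝ) ≤
      ∑ b ∈ Finset.Icc 1 ⌊A⌋₊ ×ˢ Finset.range (⌊2 * Real.log A⌋₊ + 1), 1 / (b.1 : ℝ) :=
    Finset.sum_le_sum_of_subset_of_nonneg hsub fun b _ _ => by positivity
  refine h1.trans ?_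
  rw [Finset.sum_product' (f := fun (x : ℕ) (_ : ℕ) => 1 / (x : ℝ))]
  simp only [Finset.sum_const, Finset.card_range, nsmul_eq_mul]
  rw [← Finset.mul_sum]
  have h2 : ∑ i ∈ Finset.Icc 1 ⌊A⌋₊, 1 / (i : ℝ) ≤ 1 + Real.log A := by
    have h := harmonic_floor_le_one_add_log A hA
    rw [harmonic_eq_sum_Icc] at h
    push_cast at h
    simpa [one_div] using h
  have h3 : ((⌊2 * Real.log A⌋₊ + 1 : ℕ) : ℝ) ≤ 2 * (1 + Real.log A) := by
    push_cast
    have := Nat.floor_le (by positivity : 0 ≤ 2 * Real.log A)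
    linarith
  have h4 : 0 ≤ ∑ i ∈ Finset.Icc 1 ⌊A⌋₊, 1 / (i : ℝ) :=
    Finset.sum_nonneg fun i _ => by positivity
  calc ((⌊2 * Real.log A⌋₊ + 1 : ℕ) : ℝ) * ∑ i ∈ Finset.Icc 1 ⌊A⌋₊, 1 / (i : ℝ)
      ≤ (2 * (1 + Real.log A)) * (1 + Real.log A) :=
        mul_le_mul h3 h2 h4 (by positivity)
    _ = 2 * (1 + Real.log A) ^ 2 := by ring

/-- Row HG. -/
theorem pf_HG (hNW : T_NW) (hWSM : T_WSM) : T_HG := by
  classical
  obtain ⟨C, hC, hW⟩ := hWSM
  refine ⟨(12 + 3 * C) * 2, by positivity, fun ρ A η T hρ hA hη hT => ?_⟩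
  have hlog : 0 ≤ Real.log A := Real.log_nonneg hA
  have hA0 : 0 < A := by linarith
  set P : Finset (ℕ × ℕ) := T.image (fun a => a.2) with hP
  have hmaps : ∀ a ∈ T, a.2 ∈ P := fun a ha => Finset.mem_image_of_mem _ ha
  have hPp : ∀ b ∈ P, 1 ≤ b.1 ∧ (b.1 : ℝ) * 2 ^ b.2 ≤ A := by
    intro b hb
    obtain ⟨a, ha, rfl⟩ := Finset.mem_image.1 hb
    exact ⟨(hT a ha).2.1, (hT a ha).2.2.2⟩
  rw [← Finset.sum_fiberwise_of_maps_to hmaps]
  have hinner : ∀ b ∈ P, ∑ a ∈ T.filter (fun a => a.2 = b), hw ρ η a ≤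
      ((12 + 3 * C) * ((1 + η * A) * (1 + Real.log A))) * (1 / (b.1 : ℝ)) := by
    rintro ⟨f, k⟩ hb
    obtain ⟨hf, hfk⟩ := hPp _ hb
    simp only at hf hfk ⊢
    have hf' : (1 : ℝ) ≤ f := by exact_mod_cast hf
    have hf0 : (0 : ℝ) < f := by linarith
    have h2k : (1 : ℝ) ≤ 2 ^ k := one_le_pow₀ (by norm_num)
    have h2k0 : (0 : ℝ) < 2 ^ k := by positivity
    set F : Finset (ℤ × ℤ) := (T.filter (fun a => a.2 = (f, k))).image (fun a => a.1) with hF
    have hsum : ∑ a ∈ T.filter (fun a => a.2 = (f, k)), hw ρ η a =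
        ∑ w ∈ F, hw ρ η (w, (f, k)) := by
      rw [hF, Finset.sum_image]
      · refine Finset.sum_congr rfl fun a ha => ?_
        have h := (Finset.mem_filter.1 ha).2
        have : a = (a.1, (f, k)) := by rw [← h]
        rw [this]
      · intro a ha b' hb' h
        have h1 := (Finset.mem_filter.1 ha).2
        have h2 := (Finset.mem_filter.1 hb').2
        exact Prod.ext h (h1.trans h2.symm)
    have hFp : ∀ w ∈ F, 0 < w.2 ∧ nr ρ w ≤ 4 * 2 ^ k / f := by
      intro w hw'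
      obtain ⟨a, ha, rfl⟩ := Finset.mem_image.1 hw'
      obtain ⟨haT, ha2⟩ := Finset.mem_filter.1 ha
      obtain ⟨h1, _, h3, _⟩ := hT a haT
      refine ⟨h1, ?_⟩
      rw [ha2] at h3
      simp only at h3
      rw [le_div_iff₀ hf0]
      linarith
    have hRHS : 0 ≤ ((12 + 3 * C) * ((1 + η * A) * (1 + Real.log A))) * (1 / (f : ℝ)) := by
      positivity
    rw [hsum]
    by_cases hne : F.Nonempty
    swap
    · rw [Finset.not_nonempty_iff_eq_empty.1 hne, Finset.sum_empty]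
      exact hRHS
    have hR1 : 1 ≤ 4 * 2 ^ k / (f : ℝ) := by
      obtain ⟨w, hw'⟩ := hne
      obtain ⟨h1, h2⟩ := hFp w hw'
      refine le_trans ?_ h2
      unfold nr
      have h3 : (1 : ℝ) ≤ (w.2 : ℝ) := by exact_mod_cast h1
      have h4 : 0 ≤ (w.1 : ℝ) ^ 2 / ρ := by positivity
      nlinarith
    have hcard := hNW ρ (4 * 2 ^ k / f) F hρ (by linarith) hFp
    have hws := hW ρ (4 * 2 ^ k / f) F hρ hR1 hFp
    have hexp : ∑ w ∈ F, hw ρ η (w, (f, k)) =
        (F.card : ℝ) / 2 ^ k + η * 2 ^ k * ∑ w ∈ F, 1 / nr ρ w := by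
      rw [Finset.mul_sum, Finset.card_eq_sum_ones]
      push_cast
      rw [Finset.sum_div, ← Finset.sum_add_distrib]
      refine Finset.sum_congr rfl fun w _ => ?_
      unfold hw
      have h4 : (4 : ℝ) ^ k = 2 ^ k * 2 ^ k := by
        rw [← mul_pow]; norm_num
      simp only
      rw [h4]
      field_simp
    rw [hexp]
    have hb1 : (F.card : ℝ) / 2 ^ k ≤ 12 * (1 / f) := by
      rw [div_le_iff₀ h2k0]
      calc (F.card : ℝ) ≤ 3 * (4 * 2 ^ k / f) := hcard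
        _ = 12 * (1 / f) * 2 ^ k := by ring
    have hlogR : 1 + Real.log (4 * 2 ^ k / f) ≤ 3 * (1 + Real.log A) := by
      have h1 : 4 * 2 ^ k / (f : ℝ) ≤ 4 * A := by
        rw [div_le_iff₀ hf0]
        nlinarith
      have h2 := Real.log_le_log (by linarith) h1
      rw [Real.log_mul (by norm_num) hA0.ne'] at h2
      have h3 : Real.log 4 ≤ 2 := by
        have : Real.log 4 = 2 * Real.log 2 := by
          rw [show (4 : ℝ) = 2 ^ 2 by norm_num, Real.log_pow]; norm_num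
        rw [this]
        have := Real.log_two_lt_d9
        linarith
      linarith
    have h2kA : (2 : ℝ) ^ k ≤ A * (1 / f) := by
      rw [mul_one_div, le_div_iff₀ hf0]
      linarith
    have hb2 : η * 2 ^ k * ∑ w ∈ F, 1 / nr ρ w ≤
        (η * (A * (1 / f))) * (C * (3 * (1 + Real.log A))) := by
      have hs0 : 0 ≤ ∑ w ∈ F, 1 / nr ρ w := by
        refine Finset.sum_nonneg fun w _ => ?_
        unfold nr
        positivity
      refine mul_le_mul (mul_le_mul_of_nonneg_left h2kA hη) ?_ hs0 (by positivity)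
      exact hws.trans (mul_le_mul_of_nonneg_left hlogR hC)
    have hηA : 0 ≤ η * A := by positivity
    calc (F.card : ℝ) / 2 ^ k + η * 2 ^ k * ∑ w ∈ F, 1 / nr ρ w
        ≤ 12 * (1 / f) + (η * (A * (1 / f))) * (C * (3 * (1 + Real.log A))) :=
          add_le_add hb1 hb2
      _ = (12 + 3 * C * ((η * A) * (1 + Real.log A))) * (1 / f) := by ring
      _ ≤ ((12 + 3 * C) * ((1 + η * A) * (1 + Real.log A))) * (1 / f) := by
          refine mul_le_mul_of_nonneg_right ?_ (by positivity)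
          have h1 : 1 ≤ (1 + η * A) * (1 + Real.log A) := by nlinarith
          have h2 : (η * A) * (1 + Real.log A) ≤ (1 + η * A) * (1 + Real.log A) := by
            nlinarith
          nlinarith
  refine (Finset.sum_le_sum hinner).trans ?_
  rw [← Finset.mul_sum]
  have hsb := sum_blocks A hA P hPp
  have hpos : 0 ≤ (12 + 3 * C) * ((1 + η * A) * (1 + Real.log A)) := by positivity
  calc ((12 + 3 * C) * ((1 + η * A) * (1 + Real.log A))) * ∑ b ∈ P, 1 / (b.1 : ℝ)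
      ≤ ((12 + 3 * C) * ((1 + η * A) * (1 + Real.log A))) * (2 * (1 + Real.log A) ^ 2) :=
        mul_le_mul_of_nonneg_left hsb hpos
    _ = (12 + 3 * C) * 2 * (1 + η * A) * (1 + Real.log A) ^ 3 := by ring

end Pool.Agent.H29.FM
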