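import Pool.Agent.H89.FM.Targets2

/-!
# Row RAB: the sum of the Ramanujan products over the lattices of a given index
-/

set_option autoImplicit false

open MeasureTheory Set Filter
open scoped Real Matrix MatrixGroups

namespace Pool.Agent.H29.FM

open Pool.Agent.H31.CN Pool.Agent.H89.FM

/-- Row RAB. -/
theorem pf_RAB (hCRT : T_CRT) (hRFM : T_RFM) (hFLS : T_FLS) (hRBP : T_RBP) : T_RAB := by
  intro f Q
  induction f using Nat.strong_induction_on with
  | _ f ih =>
    intro hf
    have hf0 : f ≠ 0 := hf.ne_zero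
    by_cases h1 : f = 1
    · subst h1
      have hL : Ls 1 = {⊤} := by
        ext L
        rw [(hFLS 1 L le_rfl).1, AddSubgroup.index_eq_one, Finset.mem_singleton]
      rw [hL, Finset.sum_singleton]
      simp [Rn]
    · obtain ⟨p, hp, hpf⟩ := Nat.exists_prime_and_dvd h1
      obtain ⟨m, rfl⟩ := hpf
      have hpm : Nat.Coprime p m := Nat.coprime_of_squarefree_mul hf
      have hm : Squarefree m := hf.of_mul_right
      have hm0 : 0 < m := Nat.pos_of_ne_zero hm.ne_zero
      have hlt : m < p * m := by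
        have := hp.two_le
        nlinarith
      have ihm := ih m hlt hm
      obtain ⟨c1, c2, c3⟩ := hCRT p m hp.one_le hm0 hpm
      have hsum : ∑ L ∈ Ls (p * m), |Rn (p * m) L Q| =
          (∑ L ∈ Ls p, |Rn p L Q|) * ∑ L ∈ Ls m, |Rn m L Q| := by
        rw [Finset.sum_mul_sum, ← Finset.sum_product']
        symm
        refine Finset.sum_nbij (fun a => a.1 ⊓ a.2) ?_ ?_ ?_ ?_
        · intro a ha
          rw [Finset.mem_product] at ha
          exact c1 _ ha.1 _ ha.2
        · intro a ha b hb hab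
          rw [Finset.mem_coe, Finset.mem_product] at ha hb
          obtain ⟨e1, e2⟩ := c3 _ ha.1 _ ha.2 _ hb.1 _ hb.2 hab
          exact Prod.ext e1 e2
        · intro L hL
          obtain ⟨L₁, hL₁, L₂, hL₂, rfl⟩ := c2 L hL
          exact ⟨(L₁, L₂), by
            rw [Finset.mem_coe, Finset.mem_product]
            exact ⟨hL₁, hL₂⟩, rfl⟩
        · intro a ha
          rw [Finset.mem_product] at ha
          rw [(hRFM p m a.1 a.2 Q hp.one_le hm0 hpm ha.1 ha.2).2, abs_mul]
      rw [hsum]
      have hpb : ∑ L ∈ Ls p, |Rn p L Q| ≤ 3 * (p : ℝ) * (Nat.gcd p Q.1.natAbs : ℝ) := by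
        refine (hRBP p Q hp).trans ?_
        have hp0 : (0 : ℝ) ≤ p := Nat.cast_nonneg _
        split_ifs with h
        · have hd : p ∣ Q.1.natAbs := Int.natCast_dvd.1 h
          rw [Nat.gcd_eq_left hd]
          nlinarith
        · have hg : (1 : ℝ) ≤ (Nat.gcd p Q.1.natAbs : ℝ) := by
            have : 0 < Nat.gcd p Q.1.natAbs := Nat.gcd_pos_of_pos_left _ hp.pos
            exact_mod_cast this
          nlinarith
      have hcard : (p * m).primeFactors.card = m.primeFactors.card + 1 := by
        rw [hpm.primeFactors_mul, Finset.card_union_of_disjoint hpm.disjoint_primeFactors,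
          hp.primeFactors, Finset.card_singleton, add_comm]
      have hgcd : Nat.gcd (p * m) Q.1.natAbs = Nat.gcd p Q.1.natAbs * Nat.gcd m Q.1.natAbs :=
        hpm.mul_gcd _
      rw [hcard, hgcd, pow_succ]
      push_cast
      have h0 : 0 ≤ ∑ L ∈ Ls m, |Rn m L Q| := Finset.sum_nonneg fun _ _ => abs_nonneg _
      calc (∑ L ∈ Ls p, |Rn p L Q|) * ∑ L ∈ Ls m, |Rn m L Q|
          ≤ (3 * (p : ℝ) * (Nat.gcd p Q.1.natAbs : ℝ)) *
            (3 ^ m.primeFactors.card * (m : ℝ) * (Nat.gcd m Q.1.natAbs : ℝ)) :=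
            mul_le_mul hpb ihm h0 (by positivity)
        _ = _ := by ring

end Pool.Agent.H29.FM
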