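import Pool.Agent.H89.FM.Targets2

/-!
# Row RFM: the Ramanujan products are multiplicative
-/

set_option autoImplicit false

open MeasureTheory Set Filter
open scoped Real Matrix MatrixGroups

namespace Pool.Agent.H29.FM

open Pool.Agent.H31.CN Pool.Agent.H89.FM

theorem val_smul (Q : QF) (m : ℤ) (v : ℤ × ℤ) : val Q (m • v) = m ^ 2 * val Q v := by
  unfold val
  simp only [Prod.smul_fst, Prod.smul_snd, smul_eq_mul]
  ring

/-- Divisibility on the intersection with a lattice of coprime index. -/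
theorem dv_inf (hFLS : T_FLS) (p f m : ℕ) (L₁ L₂ : AddSubgroup (ℤ × ℤ)) (Q : QF) (hm : 1 ≤ m)
    (hfm : Nat.Coprime f m) (h₂ : L₂ ∈ Ls m) (hp : p.Prime) (hpf : p ∣ f) :
    Dv p (L₁ ⊓ L₂) Q ↔ Dv p L₁ Q := by
  constructor
  · intro h v hv
    have h1 : (m : ℤ) • v ∈ L₁ ⊓ L₂ :=
      AddSubgroup.mem_inf.2 ⟨L₁.zsmul_mem hv _, (hFLS m L₂ hm).2 h₂ v⟩
    have h2 := h _ h1
    rw [val_smul] at h2
    have hp' : Prime (p : ℤ) := Nat.prime_iff_prime_int.1 hp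
    rcases hp'.dvd_or_dvd h2 with h3 | h3
    · have h4 : (p : ℤ) ∣ (m : ℤ) := hp'.dvd_of_dvd_pow h3
      have h5 : p ∣ m := by exact_mod_cast h4
      have h6 : p ∣ Nat.gcd f m := Nat.dvd_gcd hpf h5
      rw [hfm] at h6
      exact absurd (Nat.dvd_one.1 h6) hp.one_lt.ne'
    · exact h3
  · intro h v hv
    exact h v (AddSubgroup.mem_inf.1 hv).1

/-- Row RFM. -/
theorem pf_RFM (hFLS : T_FLS) (_ : T_CRT) : T_RFM := by
  intro f m L₁ L₂ Q hf hm hfm h₁ h₂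
  have k1 : ∀ p : ℕ, p.Prime → p ∣ f → (Dv p (L₁ ⊓ L₂) Q ↔ Dv p L₁ Q) := fun p hp hpf =>
    dv_inf hFLS p f m L₁ L₂ Q hm hfm h₂ hp hpf
  have k2 : ∀ p : ℕ, p.Prime → p ∣ m → (Dv p (L₁ ⊓ L₂) Q ↔ Dv p L₂ Q) := fun p hp hpm => by
    rw [inf_comm]
    exact dv_inf hFLS p m f L₂ L₁ Q hf hfm.symm h₁ hp hpm
  refine ⟨k1, ?_⟩
  unfold Rn
  rw [hfm.primeFactors_mul, Finset.prod_union hfm.disjoint_primeFactors]
  congr 1
  · refine Finset.prod_congr rfl fun p hp => ?_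
    have h := k1 p (Nat.prime_of_mem_primeFactors hp) (Nat.dvd_of_mem_primeFactors hp)
    by_cases hd : Dv p L₁ Q
    · rw [if_pos hd, if_pos (h.2 hd)]
    · rw [if_neg hd, if_neg fun h' => hd (h.1 h')]
  · refine Finset.prod_congr rfl fun p hp => ?_
    have h := k2 p (Nat.prime_of_mem_primeFactors hp) (Nat.dvd_of_mem_primeFactors hp)
    by_cases hd : Dv p L₂ Q
    · rw [if_pos hd, if_pos (h.2 hd)]
    · rw [if_neg hd, if_neg fun h' => hd (h.1 h')]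

end Pool.Agent.H29.FM
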